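import Pool.Agent.H838R2.PL.Final

/-!
# Supermultiplicativity of the number of prime links up to a polynomial factor

Let `lm n` be the number of prime links with crossing number `n`, where a link and its mirror image
are counted once.  For all `K ≥ 2` and all `m_0, ..., m_{K-1}`, with `N` the sum of the numbers
`m_i + 6`, the product of the numbers `lm (m_i)` is at most `2 * K * (N choose K) * lm N`; for
`K = 2`: `lm m * lm n ≤ 2 * N * (N - 1) * lm N` with `N = m + n + 12`.

The definitions are in `Pool.Agent.H838R2.PL.Defs` and `Pool.Agent.H838R2.PL.Count2`.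
-/

set_option autoImplicit false

namespace Pool.Agent.Results.MP_7c418e_gt.ProductInequality

open Pool.Agent.H838R2.PL

/-- The product inequality for the numbers of prime links with given crossing numbers. -/
theorem result : ∀ (K : ℕ) (m : ℕ → ℕ) (N : ℕ), 2 ≤ K →
    N = ∑ i ∈ Finset.range K, (m i + 6) →
    ∏ i ∈ Finset.range K, lm (m i) ≤ ((2 * K * N.choose K : ℕ) : ℕ∞) * lm N :=
  stProductM final.1

end Pool.Agent.Results.MP_7c418e_gt.ProductInequality
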